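import Mathlib
import Pool.Agent.Helper119.DistE
import Pool.Agent.Helper119.DistF

open Finset

namespace Pool.Agent.Results.MP_603301_co.DistanceCounts

/-- The set of all numbers of distinct distances determined by n distinct points of
k-dimensional Euclidean space. -/
def valueSet (k n : ℕ) : Set ℕ :=
  {m | ∃ X : Fin n → EuclideanSpace ℝ (Fin k), Function.Injective X ∧
    Set.ncard {d : ℝ | ∃ i j : Fin n, i < j ∧ dist (X i) (X j) = d} = m}

/-- The lower end of the range: n - 1 on the line, C n / sqrt(log n) in the plane, and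
36 k^2 n^(2/k) in dimension k at least 3. -/
noncomputable def threshold (C : ℝ) (k n : ℕ) : ℝ :=
  if k = 1 then (n : ℝ) - 1
  else if k = 2 then C * (n / √(Real.log n))
  else 36 * (k : ℝ) ^ 2 * (n : ℝ) ^ ((2 : ℝ) / k)

open Pool.Agent.Helper119.DistB Pool.Agent.Helper119.DistC Pool.Agent.Helper119.DistE
  Pool.Agent.Helper119.DistF in
/-- There is an absolute constant C such that for all k and n, every integer between the
threshold and the binomial coefficient (n choose 2) is the number of distinct distances of some
n distinct points of Euclidean k-space. -/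
theorem result : ∃ C : ℝ, 0 < C ∧ ∀ k n m : ℕ, 1 ≤ k → 2 ≤ n →
    threshold C k n ≤ (m : ℝ) → m ≤ n.choose 2 → m ∈ valueSet k n := by
  obtain ⟨K, hK0, hK⟩ := sqs_two
  refine ⟨144 * K + 1, by positivity, ?_⟩
  intro k n m hk hn hth hm
  change Val k n m
  by_cases hline : n - 1 ≤ m
  · exact val_line hk (by omega) hline hm
  push Not at hline
  have hmn : m + 1 ≤ n := by omega
  by_cases hk1 : k = 1
  · exfalso
    subst hk1
    simp only [threshold, if_true] at hth
    have h1 : (n : ℝ) ≤ ((m + 1 : ℕ) : ℝ) := by push_cast; linarith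
    have h2 : n ≤ m + 1 := by exact_mod_cast h1
    omega
  have hk2 : 2 ≤ k := by omega
  obtain ⟨R, hR⟩ := exists_R hk m
  have hn0 : (0 : ℝ) < n := by positivity
  have key : (n : ℝ) ≤ (√(R : ℝ) / (6 * k)) ^ k := by
    by_cases hk3 : k = 2
    · subst hk3
      simp only [threshold, if_true, show (2 : ℕ) ≠ 1 from by norm_num, if_false] at hth
      have hRn : 144 * n ≤ R := by
        by_contra hcon
        push Not at hcon
        have h1 : m ≤ (sqs 2 (144 * n)).card := by
          rw [← hR]
          exact sqs_mono 2 hcon.le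
        have h2 := hK (144 * n) (by omega)
        have hlog : 0 < Real.log n := Real.log_pos (by exact_mod_cast hn)
        have hs : 0 < √(Real.log n) := Real.sqrt_pos.mpr hlog
        have h3 : √(Real.log n) ≤ √(1 + Real.log ((144 * n : ℕ) : ℝ)) := by
          apply Real.sqrt_le_sqrt
          have : Real.log n ≤ Real.log ((144 * n : ℕ) : ℝ) := by
            apply Real.log_le_log hn0
            push_cast
            linarith
          linarith
        have h4 : (((144 * n : ℕ) : ℝ)) / √(1 + Real.log ((144 * n : ℕ) : ℝ)) ≤
            144 * (n / √(Real.log n)) := by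
          push_cast at h3 ⊢
          rw [mul_div_assoc']
          exact div_le_div_of_nonneg_left (by positivity) hs h3
        have h5 : (m : ℝ) ≤ K * (144 * (n / √(Real.log n))) := by
          calc (m : ℝ) ≤ ((sqs 2 (144 * n)).card : ℝ) := by exact_mod_cast h1
            _ ≤ _ := h2
            _ ≤ _ := mul_le_mul_of_nonneg_left h4 hK0
        have h6 : 0 < (n : ℝ) / √(Real.log n) := by positivity
        nlinarith
      have h7 : (144 * n : ℝ) ≤ R := by exact_mod_cast hRn
      have h8 : (√(R : ℝ) / (6 * ((2 : ℕ) : ℝ))) ^ 2 = R / 144 := by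
        rw [div_pow, Real.sq_sqrt (by positivity)]
        norm_num
      rw [h8]
      linarith
    · simp only [threshold, if_neg hk1, if_neg hk3] at hth
      have hkpos : (0 : ℝ) < k := by positivity
      have hmR : (m : ℝ) ≤ R := by
        rw [← hR]
        exact_mod_cast sqs_le k R
      set t : ℝ := (n : ℝ) ^ ((1 : ℝ) / k) with ht
      have ht0 : 0 ≤ t := by positivity
      have htk : t ^ k = n := by
        rw [ht, ← Real.rpow_natCast, ← Real.rpow_mul hn0.le, one_div, inv_mul_cancel₀ hkpos.ne',
          Real.rpow_one]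
      have ht2 : (n : ℝ) ^ ((2 : ℝ) / k) = t ^ 2 := by
        rw [ht, ← Real.rpow_natCast, ← Real.rpow_mul hn0.le]
        congr 1
        push_cast
        ring
      rw [ht2] at hth
      have h9 : 6 * k * t ≤ √(R : ℝ) := by
        apply Real.le_sqrt_of_sq_le
        calc (6 * k * t) ^ 2 = 36 * (k : ℝ) ^ 2 * t ^ 2 := by ring
          _ ≤ (m : ℝ) := hth
          _ ≤ (R : ℝ) := hmR
      have h10 : t ≤ √(R : ℝ) / (6 * k) := by
        rw [le_div_iff₀ (by positivity)]
        linarith
      rw [← htk]
      exact pow_le_pow_left₀ ht0 h10 k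
  have := lattice' hk2 (R := R) (n := n) (by rw [hR]; exact hmn) key
  rwa [hR] at this

end Pool.Agent.Results.MP_603301_co.DistanceCounts
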