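import Mathlib
import Pool.Agent.Helper949.Lattice
import Pool.Agent.Helper949.Interval

set_option autoImplicit false

namespace Pool.Agent.Results.MP_603301_co.IntervalHighDim

/-- `A_k(X_1,…,X_n)`: the number of distinct distances determined by the points `X i`. -/
noncomputable def numDistances {k n : ℕ} (X : Fin n → EuclideanSpace ℝ (Fin k)) : ℕ :=
  Set.ncard {r : ℝ | ∃ i j : Fin n, i < j ∧ r = dist (X i) (X j)}

/-- The value set `𝒟_k(n)`: all numbers of distinct distances of `n` distinct points of `ℝ^k`. -/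
def valueSet (k n : ℕ) : Set ℕ :=
  {m | ∃ X : Fin n → EuclideanSpace ℝ (Fin k), Function.Injective X ∧ numDistances X = m}

/-- The least number `g_k(n)` of distinct distances. -/
noncomputable def minDistances (k n : ℕ) : ℕ := sInf (valueSet k n)

theorem result :
    -- (1) full interval property `𝒟_k(n) = {g_k(n), …, C(n,2)}` whenever `n ≤ C(k,t)`,
    --     `k ≥ 2t`, `k ≥ (t-1)^2`
    (∀ k t n : ℕ, 2 * t ≤ k → (t - 1) ^ 2 ≤ k → 2 ≤ n → n ≤ k.choose t →
      valueSet k n = Set.Icc (minDistances k n) (n.choose 2)) ∧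
    -- (2) explicit value sets
    (∀ k t n : ℕ, 1 ≤ t → 2 * t ≤ k → (k + (t - 1)).choose (t - 1) < n → n ≤ k.choose t →
      valueSet k n = Set.Icc t (n.choose 2)) ∧
    (∀ k n : ℕ, 2 ≤ n → n ≤ k + 1 → valueSet k n = Set.Icc 1 (n.choose 2)) ∧
    (∀ n : ℕ, 2 ≤ n → valueSet 1 n = Set.Icc (n - 1) (n.choose 2)) ∧
    -- (3) ranges for all `k` and `n`
    (∀ k t n m : ℕ, 1 ≤ t → 2 * t ≤ k → 2 ≤ n → n ≤ k.choose t → t ≤ m → m ≤ n.choose 2 →
      m ∈ valueSet k n) ∧
    (∀ k n m : ℕ, 1 ≤ k → 2 ≤ n → 40 * (k : ℝ) * (n : ℝ) ^ ((2 : ℝ) / k) ≤ m →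
      m ≤ n.choose 2 → m ∈ valueSet k n) ∧
    (∃ C : ℝ, 0 < C ∧ ∀ n m : ℕ, 2 ≤ n → C * (n / √(Real.log n)) ≤ m →
      m ≤ n.choose 2 → m ∈ valueSet 2 n) := by
  refine ⟨?_, ?_, ?_, ?_, ?_, ?_, ?_⟩
  · intro k t n h1 h2 h3 h4
    exact Pool.Agent.Helper949.DD.D_interval h1 h2 h3 h4
  · intro k t n h1 h2 h3 h4
    exact Pool.Agent.Helper949.DD.D_exact h2 h1 h3 h4
  · intro k n hn hk
    exact Pool.Agent.Helper949.DD.D_high k n hn hk
  · intro n hn
    exact Pool.Agent.Helper949.DD.D_one n (by omega)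
  · intro k t n m h1 h2 h3 h4 h5 h6
    exact Pool.Agent.Helper949.DD.johnson_range h1 h2 h3 h4 h5 h6
  · intro k n m hk hn hm hm2
    rcases le_or_gt (n - 1) m with h | h
    · exact Pool.Agent.Helper949.DD.line_range (by omega) n m (by omega) h hm2
    · exact Pool.Agent.Helper949.DD.lattice_rangeM (by omega) n m hm (by omega)
  · obtain ⟨C, hC, h⟩ := Pool.Agent.Helper949.DD.plane_rangeM
    refine ⟨C, hC, ?_⟩
    intro n m hn hm hm2
    rcases le_or_gt (n - 1) m with h' | h'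
    · exact Pool.Agent.Helper949.DD.line_range (by omega) n m (by omega) h' hm2
    · exact h n hn m hm (by omega)

end Pool.Agent.Results.MP_603301_co.IntervalHighDim
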